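import Mathlib
import Pool.Agent.Helper97.Double.Defs
import Pool.Agent.Helper97.Double.Edges
import Pool.Agent.Helper97.Double.Density

set_option autoImplicit false

namespace Pool.Agent.Results.MP_548d6e_co.OctagonDoubleTiling

open Pool.Agent.Helper97.Double

/-- There is a multiple tiling of the Euclidean plane of density 2 by convex octagons which is
simultaneously edge-disjoint, vertex-disjoint, isohedral and irreducible. -/
theorem result : ∃ (ι : Type) (T : ι → ConvexPolygon), (∀ i, (T i).n = 8) ∧
    IsMultipleTiling T 2 ∧ EdgeDisjoint T ∧ VertexDisjoint T ∧ Isohedral T ∧ Irreducible T 2 :=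
  ⟨Idx, T, fun _ => rfl, isMultipleTiling, edgeDisjoint, vertexDisjoint, isohedral, irreducible⟩

end Pool.Agent.Results.MP_548d6e_co.OctagonDoubleTiling
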